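import Mathlib
import Pool.Agent.H202IG.NoNormal

/-!
# MP_c6fb0d_al: simple subgroups of groups with soluble and alternating factors

Let `p ≠ q` be primes and `G` a finite group invariably generated by `a` of order `p` and `b` of
order `q`, with a normal series whose factors are soluble or isomorphic to `Alt(n)^k`. Then every
finite non-abelian simple subgroup `H` of `G` satisfies `2 |H| ≤ (p q)!`.

Key step (`no_factor`): every alternating factor has `n ≤ p q`, because `G` acts on `k` blocks of `n`
points (`Aut(Alt(n)^k)`, `n ≥ 7`, is computed in `Pool.Agent.H202IG`), an element of order `p` or `q`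
preserves a set with exactly `p q` points in every block, and `Alt(n)^k` is transitive on such sets.
-/

set_option autoImplicit false

namespace Pool.Agent.Results.MP_c6fb0d_al.ChiefFactors

open Pool.Agent.H202IG

/-- `a` and `b` invariably generate `G`: any conjugates of them generate `G`. -/
def InvariablyGenerate {G : Type} [Group G] (a b : G) : Prop :=
  ∀ g h : G, Subgroup.closure {g⁻¹ * a * g, h⁻¹ * b * h} = ⊤

/-- `G` has a normal series `1 = K 0 ≤ K 1 ≤ ... ≤ K s = G` of normal subgroups of `G` in which every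
factor `K (i+1) / K i` is soluble or isomorphic to `Alt(n)^k` for some `k` and some `n ≥ 5`. -/
def SolubleOrAlternatingFactors (G : Type) [Group G] : Prop :=
  ∃ (s : ℕ) (K : ℕ → Subgroup G), K 0 = ⊥ ∧ K s = ⊤ ∧ (∀ i, (K i).Normal) ∧
    (∀ i, K i ≤ K (i + 1)) ∧
    ∀ i, (∃ (A : Type) (_ : Group A) (f : K (i + 1) →* A),
        Group.IsSolvable A ∧ ∀ x, f x = 1 ↔ (x : G) ∈ K i) ∨
      (∃ (k n : ℕ) (f : K (i + 1) →* (Fin k → alternatingGroup (Fin n))),
        5 ≤ n ∧ Function.Surjective f ∧ ∀ x, f x = 1 ↔ (x : G) ∈ K i)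

theorem no_factor {G : Type} [Group G] (p q : ℕ) (hp : p.Prime) (hq : q.Prime) (hpq : p ≠ q)
    (a b : G) (ha : a ^ p = 1) (hb : b ^ q = 1) (hinv : InvariablyGenerate a b)
    (L K : Subgroup G) [L.Normal] [K.Normal] (k n : ℕ) (hk : 0 < k)
    (f : K →* (Fin k → alternatingGroup (Fin n))) (hf : Function.Surjective f)
    (hker : ∀ x, f x = 1 ↔ (x : G) ∈ L) : n ≤ p * q := by
  have : Nonempty (Fin k) := ⟨⟨0, hk⟩⟩
  let π := QuotientGroup.mk' L
  have hπ : Function.Surjective π := QuotientGroup.mk'_surjective L
  have hN : (K.map π).Normal := Subgroup.Normal.map inferInstance π hπ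
  let g : K →* K.map π := π.subgroupMap K
  have hg : Function.Surjective g := π.subgroupMap_surjective K
  have hkk : g.ker = f.ker := by
    ext x
    rw [MonoidHom.mem_ker, MonoidHom.mem_ker, hker]
    constructor
    · intro h
      have h1 : π (x : G) = 1 := congrArg Subtype.val h
      exact (QuotientGroup.eq_one_iff (x : G)).1 h1
    · intro h
      exact Subtype.ext ((QuotientGroup.eq_one_iff (x : G)).2 h)
  let e : K.map π ≃* (Fin k → alternatingGroup (Fin n)) :=
    (QuotientGroup.quotientKerEquivOfSurjective g hg).symm.trans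
      ((QuotientGroup.quotientMulEquivOfEq hkk).trans
        (QuotientGroup.quotientKerEquivOfSurjective f hf))
  have h1 := no_normal (K.map π) e p q hp hq hpq (π a) (π b) (by rw [← map_pow, ha, map_one])
    (by rw [← map_pow, hb, map_one]) (InvGen.map (a := a) (b := b) hinv π hπ)
  simpa using h1

theorem no_embedding {G : Type} [Group G] [Finite G] (p q : ℕ) (hp : p.Prime) (hq : q.Prime)
    (hpq : p ≠ q) (a b : G) (ha : a ^ p = 1) (hb : b ^ q = 1) (hinv : InvariablyGenerate a b)
    (hG : SolubleOrAlternatingFactors G) (H : Type) [Group H] [Finite H] [IsSimpleGroup H]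
    (hH : ∃ x y : H, x * y ≠ y * x) (hcard : (p * q).factorial < 2 * Nat.card H)
    (φ : H →* G) (hφ : Function.Injective φ) : False := by
  classical
  obtain ⟨s, K, h0, hs, hn, hle, hfac⟩ := hG
  have hsimple : ∀ N : Subgroup H, N.Normal → N = ⊥ ∨ N = ⊤ := fun N hN =>
    IsSimpleGroup.eq_bot_or_eq_top_of_normal N hN
  have hP0 : (K 0).comap φ = ⊥ := by
    rw [h0]
    exact (MonoidHom.ker_eq_bot_iff φ).2 hφ
  have hPs : (K s).comap φ ≠ ⊥ := by
    rw [hs, Subgroup.comap_top]
    exact (bot_ne_top (α := Subgroup H)).symm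
  have hex : ∃ i, (K i).comap φ ≠ ⊥ := ⟨s, hPs⟩
  let j := Nat.find hex
  have hj : (K j).comap φ ≠ ⊥ := Nat.find_spec hex
  have hj0 : j ≠ 0 := by
    intro h; rw [h] at hj; exact hj hP0
  obtain ⟨i, hi⟩ := Nat.exists_eq_succ_of_ne_zero hj0
  have hi0 : (K i).comap φ = ⊥ := by
    by_contra h
    exact Nat.find_min hex (show i < Nat.find hex by change i < j; omega) h
  rw [hi] at hj
  have htop : (K (i + 1)).comap φ = ⊤ := by
    have := hn (i + 1)
    rcases hsimple ((K (i + 1)).comap φ) inferInstance with h | h
    · exact absurd h hj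
    · exact h
  have hmem : ∀ x : H, φ x ∈ K (i + 1) := fun x => by
    have : x ∈ (K (i + 1)).comap φ := htop ▸ Subgroup.mem_top x
    exact this
  let ψ : H →* K (i + 1) := φ.codRestrict (K (i + 1)) hmem
  have hψ : ∀ x, (ψ x : G) = φ x := fun x => rfl
  have hone : ∀ x, φ x ∈ K i → x = 1 := by
    intro x hx
    have : x ∈ (K i).comap φ := hx
    rw [hi0, Subgroup.mem_bot] at this
    exact this
  rcases hfac i with ⟨A, _, f, hA, hf⟩ | ⟨k, n, f, hn5, hfs, hf⟩
  · have hinj : Function.Injective (f.comp ψ) := by
      rw [injective_iff_map_eq_one]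
      intro x hx
      exact hone x ((hf (ψ x)).1 hx)
    have hsol : Group.IsSolvable H := Group.isSolvable_of_isSolvable_injective hinj
    obtain ⟨x, y, hxy⟩ := hH
    exact hxy (IsSimpleGroup.comm_iff_isSolvable.2 hsol x y)
  · have hinj : Function.Injective (f.comp ψ) := by
      rw [injective_iff_map_eq_one]
      intro x hx
      exact hone x ((hf (ψ x)).1 hx)
    obtain ⟨x, y, hxy⟩ := hH
    have hx1 : x ≠ 1 := by rintro rfl; simp at hxy
    obtain ⟨c, hc⟩ : ∃ c, f (ψ x) c ≠ 1 := by
      by_contra hcon
      push Not at hcon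
      exact hx1 (hinj (by rw [map_one]; exact funext hcon))
    have hk : 0 < k := c.pos
    have := hn i
    have := hn (i + 1)
    have hnpq := no_factor p q hp hq hpq a b ha hb hinv (K i) (K (i + 1)) k n hk f hfs hf
    let θ : H →* alternatingGroup (Fin n) :=
      (Pi.evalMonoidHom (fun _ : Fin k => alternatingGroup (Fin n)) c).comp (f.comp ψ)
    have hθ : Function.Injective θ := by
      rw [← MonoidHom.ker_eq_bot_iff]
      rcases hsimple θ.ker inferInstance with h | h
      · exact h
      · exfalso
        have : x ∈ θ.ker := h ▸ Subgroup.mem_top x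
        exact hc this
    have h1 := Nat.card_le_card_of_injective θ hθ
    have : Nontrivial (Fin n) := Fin.nontrivial_iff_two_le.mpr (by omega)
    have h2 := two_mul_nat_card_alternatingGroup (α := Fin n)
    rw [Nat.card_perm, Nat.card_fin] at h2
    have h3 : n.factorial ≤ (p * q).factorial := Nat.factorial_le hnpq
    omega

/-- Let `p ≠ q` be primes and `G` a finite group invariably generated by `a` of order `p` and `b` of
order `q`. If `G` has a normal series with soluble or alternating-power factors, no finite non-abelian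
simple group `H` with `(p q)! < 2 |H|` embeds in `G`. -/
theorem result (p q : ℕ) (hp : p.Prime) (hq : q.Prime) (hpq : p ≠ q) (G : Type) [Group G] [Finite G]
    (a b : G) (ha : orderOf a = p) (hb : orderOf b = q) (hinv : InvariablyGenerate a b)
    (hG : SolubleOrAlternatingFactors G) (H : Type) [Group H] [Finite H] (hs : IsSimpleGroup H)
    (hH : ∃ x y : H, x * y ≠ y * x) (hcard : (p * q).factorial < 2 * Nat.card H) :
    ¬ ∃ φ : H →* G, Function.Injective φ := by
  have ha' : a ^ p = 1 := by rw [← ha, pow_orderOf_eq_one]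
  have hb' : b ^ q = 1 := by rw [← hb, pow_orderOf_eq_one]
  rintro ⟨φ, hφ⟩
  exact no_embedding p q hp hq hpq a b ha' hb' hinv hG H hH hcard φ hφ

end Pool.Agent.Results.MP_c6fb0d_al.ChiefFactors
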